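import Pool.Agent.Helper44.FP.Stmts3

namespace Pool.Agent.Helper63.FP

open Pool.Agent.Helper44.FP

universe u

theorem CYC_proof : ST_CYC.{u} := by
  intro A _ N hN a b c ω θ ha hb hab hc
  have hNZ : NeZero (2 * N) := ⟨by omega⟩
  have hθ : 0 ≤ θ := (norm_nonneg _).trans (hc 0 (Nat.zero_le _))
  have hval : ∀ v : ℕ, v < 2 * N → ((v : ZMod (2 * N))).val = v := fun v hv =>
    ZMod.val_natCast_of_lt hv
  have hzero : ∀ v : ℕ, v < 2 * N → v ≠ 0 → (v : ZMod (2 * N)) ≠ 0 := by
    intro v hv h0 h
    have := hval v hv
    rw [h, ZMod.val_zero] at this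
    exact h0 this.symm
  have hphi : ∀ v : ℕ, v < 2 * N → chPhi N a b (v : ZMod (2 * N)) =
      if v ≤ N then a v else b (2 * N - v) := by
    intro v hv
    unfold chPhi
    rw [hval v hv]
  have hpsi0 : chPsi N a b (0 : ZMod (2 * N)) = b 0 := by
    unfold chPsi
    rw [if_pos rfl]
  have hpsi : ∀ v : ℕ, v < 2 * N → v ≠ 0 → chPsi N a b (v : ZMod (2 * N)) =
      if v ≤ N then a v else b (2 * N - v) := by
    intro v hv h0
    unfold chPsi
    rw [if_neg (hzero v hv h0), hphi v hv]
  have hrep : ∀ k : ZMod (2 * N), ∃ v : ℕ, v < 2 * N ∧ k = (v : ZMod (2 * N)) := fun k =>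
    ⟨k.val, ZMod.val_lt k, (ZMod.natCast_zmod_val k).symm⟩
  have hcast : ((2 * N : ℕ) : ZMod (2 * N)) = 0 := ZMod.natCast_self _
  have hsucc : ∀ v : ℕ, (v : ZMod (2 * N)) + 1 = ((v + 1 : ℕ) : ZMod (2 * N)) := by
    intro v; push_cast; ring
  have hneg : ∀ v : ℕ, v ≤ 2 * N → -(v : ZMod (2 * N)) = ((2 * N - v : ℕ) : ZMod (2 * N)) := by
    intro v hv
    rw [Nat.cast_sub hv, hcast, zero_sub]
  have hone : ∀ v : ℕ, v ≤ 2 * N → 1 - (v : ZMod (2 * N)) =
      ((2 * N + 1 - v : ℕ) : ZMod (2 * N)) := by
    intro v hv
    rw [Nat.cast_sub (by omega), Nat.cast_add, hcast, zero_add, Nat.cast_one]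
  refine ⟨?_, ?_, ?_⟩
  · intro k
    obtain ⟨v, hv, rfl⟩ := hrep k
    rw [hsucc, hphi v hv]
    rcases Nat.lt_or_ge (v + 1) (2 * N) with h1 | h1
    · rw [hpsi (v + 1) h1 (by omega)]
      rcases Nat.lt_or_ge v N with h2 | h2
      · rw [if_pos (by omega), if_pos (by omega)]
        exact ha v h2
      · rw [if_neg (by omega)]
        rcases Nat.eq_or_lt_of_le h2 with h3 | h3
        · subst h3
          rw [if_pos le_rfl, hab]
          have := hb (2 * N - (N + 1)) (by omega)
          have e : 2 * N - (N + 1) + 1 = N := by omega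
          rw [e] at this
          rwa [norm_sub_rev] at this
        · rw [if_neg (by omega)]
          have := hb (2 * N - (v + 1)) (by omega)
          have e : 2 * N - (v + 1) + 1 = 2 * N - v := by omega
          rw [e] at this
          rwa [norm_sub_rev] at this
    · have h2 : v + 1 = 2 * N := by omega
      rw [h2, hcast, hpsi0]
      rcases Nat.lt_or_ge N v with h3 | h3
      · rw [if_neg (by omega)]
        have e : 2 * N - v = 0 + 1 := by omega
        rw [e]
        have := hb 0 hN
        rwa [norm_sub_rev] at this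
      · have e : v = N := by omega
        have e' : N = 0 + 1 := by omega
        rw [if_pos h3, e, hab]
        have := hb 0 hN
        rw [norm_sub_rev, ← e'] at this
        exact this
  · refine ⟨fun k => if k.val = 0 then a 1 - a 0 else if k.val ≤ N then a (k.val - 1) - a k.val
      else a (2 * N - k.val + 1) - a (2 * N - k.val), ?_, ?_⟩
    · intro k
      obtain ⟨v, hv, rfl⟩ := hrep k
      simp only [hval v hv]
      split_ifs with h1 h2
      · exact ha 0 hN
      · have := ha (v - 1) (by omega)
        have e : v - 1 + 1 = v := by omega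
        rw [e, norm_sub_rev] at this
        exact this
      · exact ha _ (by omega)
    · intro k
      obtain ⟨v, hv, rfl⟩ := hrep k
      simp only [hval v hv]
      rw [hone v hv.le, hphi v hv]
      rcases Nat.eq_zero_or_pos v with h0 | h0
      · subst h0
        have e : ((2 * N + 1 - 0 : ℕ) : ZMod (2 * N)) = ((1 : ℕ) : ZMod (2 * N)) := by
          rw [Nat.sub_zero, Nat.cast_add, hcast, zero_add]
        rw [e, hpsi 1 (by omega) one_ne_zero, if_pos (by omega), if_pos (by omega), if_pos rfl]
        rw [sub_self, mul_zero, norm_zero]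
        exact hθ
      · rw [if_neg (by omega : ¬ v = 0)]
        rcases Nat.eq_or_lt_of_le (Nat.succ_le_of_lt h0) with h1 | h1
        · have h1' : v = 1 := h1.symm
          subst h1'
          have e : ((2 * N + 1 - 1 : ℕ) : ZMod (2 * N)) = 0 := by
            rw [Nat.add_sub_cancel, hcast]
          rw [e, hpsi0, if_pos (by omega), if_pos (by omega)]
          have e2 : b 0 - a 1 - (a (1 - 1) - a 1) = b 0 - a 0 := by
            rw [Nat.sub_self]; abel
          rw [e2]
          exact hc 0 (Nat.zero_le _)
        · have h1' : 2 ≤ v := h1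
          rw [hpsi (2 * N + 1 - v) (by omega) (by omega)]
          rcases Nat.lt_or_ge N v with h2 | h2
          · rw [if_pos (by omega), if_neg (by omega), if_neg (by omega)]
            have e : 2 * N + 1 - v = 2 * N - v + 1 := by omega
            rw [e]
            have e2 : a (2 * N - v + 1) - b (2 * N - v) -
                (a (2 * N - v + 1) - a (2 * N - v)) = -(b (2 * N - v) - a (2 * N - v)) := by abel
            rw [e2, mul_neg, norm_neg]
            exact hc _ (by omega)
          · rw [if_neg (by omega), if_pos h2, if_pos h2]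
            have e : 2 * N - (2 * N + 1 - v) = v - 1 := by omega
            rw [e]
            have e2 : b (v - 1) - a v - (a (v - 1) - a v) = b (v - 1) - a (v - 1) := by abel
            rw [e2]
            exact hc _ (by omega)
  · intro k
    obtain ⟨v, hv, rfl⟩ := hrep k
    rw [hneg v hv.le, hphi v hv]
    rcases Nat.eq_zero_or_pos v with h0 | h0
    · subst h0
      rw [Nat.sub_zero, hcast, hpsi0, if_pos (by omega)]
      exact hc 0 (Nat.zero_le _)
    · rw [hpsi (2 * N - v) (by omega) (by omega)]
      rcases Nat.lt_trichotomy v N with h1 | h1 | h1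
      · rw [if_neg (by omega), if_pos (by omega)]
        have e : 2 * N - (2 * N - v) = v := by omega
        rw [e]
        exact hc v h1.le
      · subst h1
        rw [if_pos (by omega), if_pos le_rfl]
        have e : 2 * v - v = v := by omega
        rw [e, sub_self, mul_zero, norm_zero]
        exact hθ
      · rw [if_pos (by omega), if_neg (by omega)]
        have e2 : a (2 * N - v) - b (2 * N - v) = -(b (2 * N - v) - a (2 * N - v)) := by abel
        rw [e2, mul_neg, norm_neg]
        exact hc _ (by omega)

end Pool.Agent.Helper63.FP
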