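import Pool.Agent.Helper44.FP.Stmts2
import Pool.Agent.Helper44.FP.Lib

namespace Pool.Agent.Helper63.FP

open Pool.Agent.Helper44.FP

universe u

theorem FAITH_isTr {A : Type*} [CStarAlgebra A] (τ : A →ₗ[ℂ] ℂ) (h : IsTracialState τ) :
    IsTr (fun a : A => (τ a).re) := by
  have him : ∀ a : A, (τ (star a)).im = -(τ a).im := by
    intro a
    have h1 := (h.nonneg (a + 1)).2
    have e : star (a + 1) * (a + 1) = star a * a + star a + a + 1 := by
      rw [star_add, star_one]
      noncomm_ring
    rw [e, map_add, map_add, map_add, h.map_one] at h1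
    simp only [Complex.add_im, Complex.one_im, (h.nonneg a).2] at h1
    linarith
  constructor
  · intro a b
    simp
  · intro r a
    have : r • a = (r : ℂ) • a := (Complex.coe_smul r a).symm
    rw [this, map_smul]
    simp
  · rw [h.map_one]
    rfl
  · intro a b
    rw [h.comm]
  · intro a
    exact (h.nonneg a).1
  · intro a
    have h1 := him (Complex.I • a)
    rw [star_smul, map_smul, map_smul] at h1
    simp only [RCLike.star_def, Complex.conj_I, smul_eq_mul, neg_mul, Complex.neg_im,
      Complex.mul_im, Complex.I_re, zero_mul, Complex.I_im, one_mul, zero_add, neg_inj] at h1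
    exact h1

theorem FAITH_proof : ST_FAITH.{u} := by
  intro A _ hsimple τ hτ a ha
  let _ : PartialOrder A := CStarAlgebra.spectralOrder A
  have _ : StarOrderedRing A := CStarAlgebra.spectralOrderedRing A
  set t : A → ℝ := fun a => (τ a).re with ht
  have hT : IsTr t := FAITH_isTr τ hτ
  let I : TwoSidedIdeal A := TwoSidedIdeal.mk' {x : A | n2 t x = 0}
    (by
      change n2 t 0 = 0
      unfold n2
      rw [mul_zero, hT.zero, Real.sqrt_zero])
    (by
      intro x y hx hy
      apply le_antisymm _ (n2_nonneg t _)
      have := hT.n2_add_le x y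
      rw [show n2 t x = 0 from hx, show n2 t y = 0 from hy, add_zero] at this
      exact this)
    (by
      intro x hx
      change n2 t (-x) = 0
      rw [hT.n2_neg]
      exact hx)
    (by
      intro x y hy
      apply le_antisymm _ (n2_nonneg t _)
      have := hT.n2_mul_le x y
      rw [show n2 t y = 0 from hy, mul_zero] at this
      exact this)
    (by
      intro x y hx
      apply le_antisymm _ (n2_nonneg t _)
      have := hT.n2_mul_le' x y
      rw [show n2 t x = 0 from hx, zero_mul] at this
      exact this)
  have hmem : ∀ x : A, x ∈ I ↔ n2 t x = 0 := by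
    intro x
    exact TwoSidedIdeal.mem_mk' _ _ _ _ _ _ _
  have hcont : Continuous (n2 t) := by
    have h1 : LipschitzWith 1 (n2 t) := by
      apply LipschitzWith.of_dist_le_mul
      intro x y
      rw [Real.dist_eq, dist_eq_norm, NNReal.coe_one, one_mul]
      have h2 := hT.n2_add_le (x - y) y
      have h3 := hT.n2_add_le (y - x) x
      rw [sub_add_cancel] at h2 h3
      have h4 : n2 t (y - x) = n2 t (x - y) := by rw [← hT.n2_neg, neg_sub]
      have h5 := hT.n2_le_norm (x - y)
      rw [abs_le]
      constructor <;> linarith
    exact h1.continuous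
  have hclosed : IsClosed (I : Set A) := by
    have : (I : Set A) = n2 t ⁻¹' {0} := by
      ext x
      rw [SetLike.mem_coe, hmem, Set.mem_preimage, Set.mem_singleton_iff]
    rw [this]
    exact isClosed_singleton.preimage hcont
  have haI : a ∈ I := by
    rw [hmem]
    unfold n2
    have : t (star a * a) = 0 := ha
    rw [this, Real.sqrt_zero]
  rcases hsimple I hclosed with h | h
  · rw [h, TwoSidedIdeal.mem_bot] at haI
    exact haI
  · exfalso
    have h1 : (1 : A) ∈ I := by rw [h]; trivial
    rw [hmem, hT.n2_one] at h1
    exact one_ne_zero h1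

end Pool.Agent.Helper63.FP
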